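import Mathlib
import Pool.Agent.H892.KT.EN
import Pool.Agent.H892.KT.W.Holo540

/-!
# Project EN, PROD: infinite products along orbits
-/

set_option autoImplicit false

open Filter Topology Set

namespace Pool.Agent.H975.KT

open Pool.Agent.H892.KT

theorem bA_diff : Differentiable ℂ bA :=
  (differentiable_fst.mul differentiable_snd).prodMk differentiable_snd

theorem orb_diff {n : ℕ} (K : KatoData n) (k : ℕ) :
    ∀ i, DifferentiableOn ℂ (fun y => orb K.σ k i y) (K.U i) := by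
  induction k with
  | zero =>
    intro i
    exact differentiableOn_id
  | succ k ih =>
    intro i
    exact (ih (i + 1)).comp (bA_diff.comp_differentiableOn (K.diff i)) (fun y hy => K.maps i y hy)

theorem orb_zero {n : ℕ} (K : KatoData n) (k : ℕ) : ∀ i, orb K.σ k i 0 = 0 := by
  induction k with
  | zero =>
    intro i
    rfl
  | succ k ih =>
    intro i
    have h1 : bA (0 : ℂ × ℂ) = 0 := by
      unfold bA
      simp
    change orb K.σ k (i + 1) (bA (K.σ i 0)) = 0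
    rw [K.map_zero, h1]
    exact ih (i + 1)

/-- the partial products -/
noncomputable def uu {n : ℕ} (K : KatoData n) (g : ZMod n → ℂ × ℂ → ℂ) (m : ℕ) (i : ZMod n)
    (y : ℂ × ℂ) : ℂ := ∏ k ∈ Finset.range m, g (i + (k : ZMod n)) (orb K.σ k i y)

theorem uu_succ {n : ℕ} (K : KatoData n) (g : ZMod n → ℂ × ℂ → ℂ) (m : ℕ) (i : ZMod n)
    (y : ℂ × ℂ) : uu K g (m + 1) i y = uu K g m i y * g (i + (m : ZMod n)) (orb K.σ m i y) := by
  unfold uu
  rw [Finset.prod_range_succ]

theorem uu_rel {n : ℕ} (K : KatoData n) (g : ZMod n → ℂ × ℂ → ℂ) (m : ℕ) (i : ZMod n)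
    (y : ℂ × ℂ) : uu K g (m + 1) i y = g i y * uu K g m (i + 1) (bA (K.σ i y)) := by
  unfold uu
  rw [Finset.prod_range_succ', mul_comm]
  congr 1
  · rw [Nat.cast_zero, add_zero]
    rfl
  · refine Finset.prod_congr rfl fun k _ => ?_
    have h1 : i + ((k + 1 : ℕ) : ZMod n) = i + 1 + (k : ZMod n) := by
      push_cast
      ring
    rw [h1]
    rfl

theorem bound_g {n : ℕ} [NeZero n] (g : ZMod n → ℂ × ℂ → ℂ) (δ : ℝ) (hδ : 0 < δ)
    (hg : ∀ i, DifferentiableOn ℂ (g i) (Metric.ball 0 δ)) (hg0 : ∀ i, g i 0 = 1) :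
    ∃ L d : ℝ, 1 ≤ L ∧ 0 < d ∧ ∀ z : ℂ × ℂ, ‖z‖ < d → ∀ i, ‖g i z - 1‖ ≤ L * ‖z‖ := by
  have h1 : ∀ i, ∃ c : ℝ, ∀ᶠ z in 𝓝 (0 : ℂ × ℂ), ‖g i z - 1‖ ≤ c * ‖z‖ := by
    intro i
    have h2 : DifferentiableAt ℂ (g i) 0 :=
      (hg i).differentiableAt (Metric.ball_mem_nhds 0 hδ)
    have h3 := h2.isBigO_sub
    obtain ⟨c, hc⟩ := h3.bound
    refine ⟨c, ?_⟩
    filter_upwards [hc] with z hz
    rw [hg0 i, sub_zero] at hz
    exact hz
  choose c hc using h1
  have h4 : ∀ᶠ z in 𝓝 (0 : ℂ × ℂ), ∀ i, ‖g i z - 1‖ ≤ c i * ‖z‖ := by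
    rw [eventually_all]
    exact hc
  rw [Metric.eventually_nhds_iff] at h4
  obtain ⟨d, hd, h5⟩ := h4
  refine ⟨1 + ∑ i, |c i|, d, ?_, hd, ?_⟩
  · have : 0 ≤ ∑ i, |c i| := Finset.sum_nonneg fun i _ => abs_nonneg _
    linarith
  · intro z hz i
    have h6 := h5 (y := z) (by rw [dist_zero_right]; exact hz) i
    refine h6.trans (mul_le_mul_of_nonneg_right ?_ (norm_nonneg _))
    have h7 : |c i| ≤ ∑ i, |c i| :=
      Finset.single_le_sum (f := fun i => |c i|) (fun i _ => abs_nonneg _) (Finset.mem_univ i)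
    have h8 := le_abs_self (c i)
    linarith

theorem t_PROD : S_PROD := by
  intro n _ K hgeo g δ hδ hg hg0
  obtain ⟨θ, C, d0, hθ0, hθ1, hC, hd0, horb⟩ := hgeo
  obtain ⟨L, d1, hL, hd1, hgL⟩ := bound_g g δ hδ hg hg0
  have hC0 : 0 < C := by linarith
  have hL0 : 0 < L := by linarith
  have h1θ : 0 < 1 - θ := by linarith
  set μ : ℝ := min (min δ d0) (min d1 ((1 - θ) / (4 * L))) with hμ
  have hμ0 : 0 < μ := lt_min (lt_min hδ hd0) (lt_min hd1 (by positivity))
  have hμδ : μ ≤ δ := (min_le_left _ _).trans (min_le_left _ _)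
  have hμd0 : μ ≤ d0 := (min_le_left _ _).trans (min_le_right _ _)
  have hμd1 : μ ≤ d1 := (min_le_right _ _).trans (min_le_left _ _)
  have hμL : μ ≤ (1 - θ) / (4 * L) := (min_le_right _ _).trans (min_le_right _ _)
  have hdiv : μ / C ≤ μ := div_le_self hμ0.le hC
  have hball : ∀ i, ∀ y ∈ Metric.ball (0 : ℂ × ℂ) (μ / C), y ∈ K.U i ∧ ∀ k,
      ‖orb K.σ k i y‖ < μ ∧ L * ‖orb K.σ k i y‖ ≤ (1 - θ) / 4 * θ ^ k := by
    intro i y hy
    rw [mem_ball_zero_iff] at hy
    have hy0 : ‖y‖ < d0 := by linarith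
    obtain ⟨h1, h2⟩ := horb i y hy0
    refine ⟨h1, fun k => ?_⟩
    have h3 : C * ‖y‖ < μ := by
      rw [lt_div_iff₀ hC0] at hy
      linarith
    have hθk : 0 < θ ^ k := pow_pos hθ0 k
    have hθk1 : θ ^ k ≤ 1 := pow_le_one₀ hθ0.le hθ1.le
    have h4 : C * θ ^ k * ‖y‖ = (C * ‖y‖) * θ ^ k := by ring
    have h5 := h2 k
    rw [h4] at h5
    have h6 : 0 ≤ C * ‖y‖ := by positivity
    constructor
    · calc ‖orb K.σ k i y‖ ≤ (C * ‖y‖) * θ ^ k := h5
        _ ≤ (C * ‖y‖) * 1 := mul_le_mul_of_nonneg_left hθk1 h6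
        _ < μ := by rw [mul_one]; exact h3
    · calc L * ‖orb K.σ k i y‖ ≤ L * ((C * ‖y‖) * θ ^ k) := mul_le_mul_of_nonneg_left h5 hL0.le
        _ ≤ L * (μ * θ ^ k) :=
            mul_le_mul_of_nonneg_left (mul_le_mul_of_nonneg_right h3.le hθk.le) hL0.le
        _ ≤ L * ((1 - θ) / (4 * L) * θ ^ k) :=
            mul_le_mul_of_nonneg_left (mul_le_mul_of_nonneg_right hμL hθk.le) hL0.le
        _ = (1 - θ) / 4 * θ ^ k := by field_simp
  have he : ∀ i, ∀ y ∈ Metric.ball (0 : ℂ × ℂ) (μ / C), ∀ k : ℕ,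
      ‖g (i + (k : ZMod n)) (orb K.σ k i y) - 1‖ ≤ (1 - θ) / 4 * θ ^ k := by
    intro i y hy k
    obtain ⟨h1, h2⟩ := (hball i y hy).2 k
    exact (hgL _ (h1.trans_le hμd1) _).trans h2
  have hu1 : ∀ i, ∀ y ∈ Metric.ball (0 : ℂ × ℂ) (μ / C), ∀ m : ℕ,
      ‖uu K g m i y - 1‖ ≤ (1 - θ ^ m) / 2 := by
    intro i y hy m
    induction m with
    | zero => simp [uu]
    | succ m ih =>
      have hθm : 0 < θ ^ m := pow_pos hθ0 m
      have h1 : uu K g (m + 1) i y - 1 = (uu K g m i y - 1) +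
          uu K g m i y * (g (i + (m : ZMod n)) (orb K.σ m i y) - 1) := by
        rw [uu_succ]
        ring
      have h2 : ‖uu K g m i y‖ ≤ 3 / 2 := by
        have e1 : uu K g m i y = (uu K g m i y - 1) + 1 := by ring
        rw [e1]
        refine (norm_add_le _ _).trans ?_
        rw [norm_one]
        linarith
      rw [h1]
      refine (norm_add_le _ _).trans ?_
      rw [norm_mul]
      have h3 : ‖uu K g m i y‖ * ‖g (i + (m : ZMod n)) (orb K.σ m i y) - 1‖ ≤
          3 / 2 * ((1 - θ) / 4 * θ ^ m) :=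
        mul_le_mul h2 (he i y hy m) (norm_nonneg _) (by norm_num)
      have h4 : 3 / 2 * ((1 - θ) / 4 * θ ^ m) ≤ (1 - θ) * θ ^ m / 2 := by
        have : 0 ≤ (1 - θ) * θ ^ m := by positivity
        linarith
      have h5 : (1 - θ ^ (m + 1)) / 2 = (1 - θ ^ m) / 2 + (1 - θ) * θ ^ m / 2 := by
        rw [pow_succ]
        ring
      rw [h5]
      linarith
  have hstep : ∀ i, ∀ y ∈ Metric.ball (0 : ℂ × ℂ) (μ / C), ∀ m : ℕ,
      dist (uu K g m i y) (uu K g (m + 1) i y) ≤ 1 * θ ^ m := by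
    intro i y hy m
    have hθm : 0 < θ ^ m := pow_pos hθ0 m
    rw [dist_comm, dist_eq_norm]
    have h1 : uu K g (m + 1) i y - uu K g m i y =
        uu K g m i y * (g (i + (m : ZMod n)) (orb K.σ m i y) - 1) := by
      rw [uu_succ]
      ring
    have h2 : ‖uu K g m i y‖ ≤ 3 / 2 := by
      have e1 : uu K g m i y = (uu K g m i y - 1) + 1 := by ring
      rw [e1]
      refine (norm_add_le _ _).trans ?_
      rw [norm_one]
      have := hu1 i y hy m
      linarith
    rw [h1, norm_mul]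
    have h3 : ‖uu K g m i y‖ * ‖g (i + (m : ZMod n)) (orb K.σ m i y) - 1‖ ≤
        3 / 2 * ((1 - θ) / 4 * θ ^ m) :=
      mul_le_mul h2 (he i y hy m) (norm_nonneg _) (by norm_num)
    have h4 : (1 - θ) * θ ^ m ≤ 1 * θ ^ m := mul_le_mul_of_nonneg_right (by linarith) hθm.le
    linarith
  have hex : ∀ i, ∀ y ∈ Metric.ball (0 : ℂ × ℂ) (μ / C), ∃ w, Tendsto (fun m => uu K g m i y)
      atTop (𝓝 w) := fun i y hy =>
    cauchySeq_tendsto_of_complete (cauchySeq_of_le_geometric θ 1 hθ1 (hstep i y hy))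
  classical
  choose! H hH using hex
  have hdist : ∀ i, ∀ y ∈ Metric.ball (0 : ℂ × ℂ) (μ / C), ∀ m : ℕ,
      dist (uu K g m i y) (H i y) ≤ 1 * θ ^ m / (1 - θ) := fun i y hy m =>
    dist_le_of_le_geometric_of_tendsto θ 1 hθ1 (hstep i y hy) (hH i y hy) m
  have hdu : ∀ i, ∀ m : ℕ, DifferentiableOn ℂ (uu K g m i) (Metric.ball 0 (μ / C)) := by
    intro i m
    induction m with
    | zero =>
      have h1 : uu K g 0 i = fun _ => (1 : ℂ) := by
        funext y
        simp [uu]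
      rw [h1]
      exact differentiableOn_const _
    | succ m ih =>
      have h1 : uu K g (m + 1) i = fun y => uu K g m i y *
          g (i + (m : ZMod n)) (orb K.σ m i y) := by
        funext y
        exact uu_succ K g m i y
      rw [h1]
      refine ih.mul ?_
      refine (hg (i + (m : ZMod n))).comp ((orb_diff K m i).mono fun y hy => (hball i y hy).1) ?_
      intro y hy
      rw [mem_ball_zero_iff]
      exact ((hball i y hy).2 m).1.trans_le hμδ
  refine ⟨μ / C, by positivity, hdiv.trans hμδ, H, ?_, ?_, ?_, ?_⟩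
  · intro i
    have hun : TendstoUniformlyOn (fun m => uu K g m i) (H i) atTop (Metric.ball 0 (μ / C)) := by
      rw [Metric.tendstoUniformlyOn_iff]
      intro ε hε
      have h1 : Tendsto (fun m : ℕ => 1 * θ ^ m / (1 - θ)) atTop (𝓝 0) := by
        have h2 := ((tendsto_pow_atTop_nhds_zero_of_lt_one hθ0.le hθ1).const_mul (1 : ℝ)).div_const
          (1 - θ)
        rwa [mul_zero, zero_div] at h2
      filter_upwards [h1.eventually (gt_mem_nhds hε)] with m hm y hy
      rw [dist_comm]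
      exact (hdist i y hy m).trans_lt hm
    intro x hx
    obtain ⟨R, hR, hsub⟩ := Metric.isOpen_iff.1 Metric.isOpen_ball x hx
    have h5 := Pool.Agent.H892.KT.L540.differentiableOn_of_uniform_limit (c := x) (R := R)
      (f := fun m => uu K g m i) (g := H i) (fun m => (hdu i m).mono hsub) (hun.mono hsub)
    exact (h5.differentiableAt (Metric.isOpen_ball.mem_nhds
      (Metric.mem_ball_self (by linarith)))).differentiableWithinAt
  · intro i
    have h0 : (0 : ℂ × ℂ) ∈ Metric.ball (0 : ℂ × ℂ) (μ / C) :=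
      Metric.mem_ball_self (by positivity)
    have h1 := hH i 0 h0
    have h2 : (fun m => uu K g m i 0) = fun _ => (1 : ℂ) := by
      funext m
      unfold uu
      refine Finset.prod_eq_one fun k _ => ?_
      rw [orb_zero, hg0]
    rw [h2] at h1
    exact tendsto_nhds_unique h1 tendsto_const_nhds
  · intro i y hy h0
    have h1 : ‖H i y - 1‖ ≤ 1 / 2 := by
      refine le_of_tendsto ((hH i y hy).sub_const 1).norm (Eventually.of_forall fun m => ?_)
      have hθm : 0 < θ ^ m := pow_pos hθ0 m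
      have := hu1 i y hy m
      linarith
    rw [h0, zero_sub, norm_neg, norm_one] at h1
    norm_num at h1
  · intro i y hy
    refine ⟨(hball i y hy).1, fun hfy => ?_⟩
    have h1 : Tendsto (fun m => uu K g (m + 1) i y) atTop (𝓝 (H i y)) :=
      (tendsto_add_atTop_iff_nat 1).2 (hH i y hy)
    have h2 : Tendsto (fun m => g i y * uu K g m (i + 1) (bA (K.σ i y))) atTop
        (𝓝 (g i y * H (i + 1) (bA (K.σ i y)))) :=
      (hH (i + 1) (bA (K.σ i y)) hfy).const_mul (g i y)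
    refine tendsto_nhds_unique h1 (h2.congr fun m => ?_)
    exact (uu_rel K g m i y).symm

end Pool.Agent.H975.KT
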